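import Pool.Agent.V11232.LN.Main

/-!
The class of all r.e. languages is in `NegO^i TxtBc*` for every `i ≥ 1`.
-/

namespace Pool.Agent.Results.MP_1b3940_lc.AllRE

open Pool.Agent.V11232.LN

/-- For every acceptable numbering and every `i ≥ 1` there is one learner that
`NegO^i TxtBc*`-identifies every r.e. language. -/
theorem result (φ : ℕ → ℕ →. ℕ) (hφ : Acceptable φ) (i : ℕ) (hi : 1 ≤ i) :
    ∃ M : List Item → ℕ, Computable M ∧ ∀ L : Set ℕ, REPred (· ∈ L) → Ident φ i M L := by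
  obtain ⟨M, hM, h⟩ := main φ hφ
  refine ⟨M, hM, fun L hL => ?_⟩
  obtain ⟨S, h1, h2, h3⟩ := h L hL
  exact ⟨S, h1, h2.trans (by exact_mod_cast hi), h3⟩

end Pool.Agent.Results.MP_1b3940_lc.AllRE
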